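import Pool.Agent.TH254.DF.Form

/-!
The two decompositions of the row vectors over `R[G]`, by the group elements and by the
translates of the span of the rows of `A`, commute.
-/

set_option autoImplicit false

namespace Pool.Agent.TH254.DF

universe u v

open MonoidAlgebra (single)

section comp

variable {R : Type u} [Ring R] {G : Type v} [Group G] {n : ℕ}

/-- the component at `g` -/
noncomputable def comp (g : G) (x : Fin n → MonoidAlgebra R G) : Fin n → MonoidAlgebra R G :=
  fun l => single g ((x l).coeff g)

lemma comp_add (g : G) (x y : Fin n → MonoidAlgebra R G) :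
    comp g (x + y) = comp g x + comp g y := by
  funext l
  change single g ((x l + y l).coeff g) = single g _ + single g _
  rw [MonoidAlgebra.coeff_add, Finsupp.add_apply, MonoidAlgebra.single_add]

lemma comp_zero (g : G) : comp g (0 : Fin n → MonoidAlgebra R G) = 0 := by
  funext l
  change single g ((0 : MonoidAlgebra R G).coeff g) = 0
  simp

lemma at_comp_self (g : G) (x : Fin n → MonoidAlgebra R G) : at' (comp g x) g = at' x g := by
  classical
  funext l
  change (single g ((x l).coeff g)).coeff g = (x l).coeff g
  rw [MonoidAlgebra.coeff_single, Finsupp.single_eq_same]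

lemma at_comp_ne {g h : G} (hgh : g ≠ h) (x : Fin n → MonoidAlgebra R G) :
    at' (comp g x) h = 0 := by
  classical
  funext l
  change (single g ((x l).coeff g)).coeff h = 0
  rw [MonoidAlgebra.coeff_single, Finsupp.single_apply, if_neg hgh]

lemma at_sub (x y : Fin n → MonoidAlgebra R G) (g : G) : at' (x - y) g = at' x g - at' y g := by
  funext l
  change (x l - y l).coeff g = (x l).coeff g - (y l).coeff g
  rw [MonoidAlgebra.coeff_sub, Finsupp.sub_apply]

lemma comp_comp_self (g : G) (x : Fin n → MonoidAlgebra R G) : comp g (comp g x) = comp g x := by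
  funext l
  change single g ((single g ((x l).coeff g)).coeff g) = single g ((x l).coeff g)
  rw [MonoidAlgebra.coeff_single, Finsupp.single_eq_same]

end comp

variable {R : Type u} [Ring R] [StarRing R] {G : Type v} [Group G] {n : ℕ}

lemma comp_disjoint (C : Matrix (Fin n) (Fin n) R) (g : G) (x : Fin n → MonoidAlgebra R G) :
    (form C (comp g x) (x - comp g x)).coeff 1 = 0 ∧
      (form C (x - comp g x) (comp g x)).coeff 1 = 0 := by
  have h1 : ∀ h, at' (comp g x) h = 0 ∨ at' (x - comp g x) h = 0 := by
    intro h
    by_cases hg : g = h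
    · right
      rw [at_sub, ← hg, at_comp_self, sub_self]
    · left
      exact at_comp_ne hg x
  exact ⟨form_disjoint C _ _ h1, form_disjoint C _ _ (fun h => (h1 h).symm)⟩

/-- indecomposable row vectors -/
def Ind (τ : R →+ ℤ) (C : Matrix (Fin n) (Fin n) R) (x : Fin n → MonoidAlgebra R G) : Prop :=
  ∀ u v : Fin n → MonoidAlgebra R G, x = u + v → τ ((form C u v).coeff 1) = 0 →
    τ ((form C v u).coeff 1) = 0 → u = 0 ∨ v = 0

lemma ind_comp {τ : R →+ ℤ} {C : Matrix (Fin n) (Fin n) R} {x : Fin n → MonoidAlgebra R G}
    (hx : Ind τ C x) (g : G) : comp g x = 0 ∨ comp g x = x := by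
  obtain ⟨h1, h2⟩ := comp_disjoint C g x
  rcases hx (comp g x) (x - comp g x) (by abel) (by rw [h1, map_zero]) (by rw [h2, map_zero])
    with h | h
  · left; exact h
  · right; exact (sub_eq_zero.1 h).symm

/-- the component at `h` with respect to the rows of `A` -/
noncomputable def rot (A B : Matrix (Fin n) (Fin n) (MonoidAlgebra R G)) (h : G)
    (x : Fin n → MonoidAlgebra R G) : Fin n → MonoidAlgebra R G :=
  Matrix.vecMul (comp h (Matrix.vecMul x B)) A

omit [StarRing R] in
lemma rot_add (A B : Matrix (Fin n) (Fin n) (MonoidAlgebra R G)) (h : G)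
    (x y : Fin n → MonoidAlgebra R G) : rot A B h (x + y) = rot A B h x + rot A B h y := by
  unfold rot
  rw [Matrix.add_vecMul, comp_add, Matrix.add_vecMul]

omit [StarRing R] in
lemma rot_zero (A B : Matrix (Fin n) (Fin n) (MonoidAlgebra R G)) (h : G) :
    rot A B h (0 : Fin n → MonoidAlgebra R G) = 0 := by
  unfold rot
  rw [Matrix.zero_vecMul, comp_zero, Matrix.zero_vecMul]

lemma ind_rot {τ : R →+ ℤ} {C C' : Matrix (Fin n) (Fin n) R}
    {A B : Matrix (Fin n) (Fin n) (MonoidAlgebra R G)} (hBA : B * A = 1)
    (h : A * const G C * adjT A = const G C') {x : Fin n → MonoidAlgebra R G}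
    (hx : Ind τ C x) (g : G) : rot A B g x = 0 ∨ rot A B g x = x := by
  set y := Matrix.vecMul x B with hy
  have hxy : x = Matrix.vecMul y A := by
    rw [hy, Matrix.vecMul_vecMul, hBA, Matrix.vecMul_one]
  obtain ⟨h1, h2⟩ := comp_disjoint C' g y
  have h3 : rot A B g x = Matrix.vecMul (comp g y) A := rfl
  have h4 : x - rot A B g x = Matrix.vecMul (y - comp g y) A := by
    rw [h3, Matrix.sub_vecMul, ← hxy]
  rcases hx (rot A B g x) (x - rot A B g x) (by abel)
    (by rw [h4, h3, form_vecMul C C' A h, h1, map_zero])
    (by rw [h4, h3, form_vecMul C C' A h, h2, map_zero]) with h | h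
  · left; exact h
  · right; exact (sub_eq_zero.1 h).symm

/-- **the two decompositions commute** -/
theorem comp_rot {τ : R →+ ℤ} {C C' : Matrix (Fin n) (Fin n) R} (hC : Positive τ C)
    {A B : Matrix (Fin n) (Fin n) (MonoidAlgebra R G)} (hBA : B * A = 1)
    (h : A * const G C * adjT A = const G C') (g k : G) (x : Fin n → MonoidAlgebra R G) :
    comp g (rot A B k x) = rot A B k (comp g x) := by
  have key : ∀ (N : ℕ) (x : Fin n → MonoidAlgebra R G), (τ ((form C x x).coeff 1)).toNat ≤ N →
      comp g (rot A B k x) = rot A B k (comp g x) := by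
    intro N
    induction N with
    | zero =>
      intro x hx
      have hx0 : x = 0 := by
        by_contra hne
        have := form_pos τ C hC x hne
        omega
      rw [hx0, rot_zero, comp_zero, rot_zero]
    | succ N ih =>
      intro x hx
      by_cases hi : Ind τ C x
      · rcases ind_comp hi g with h1 | h1
        · rw [h1, rot_zero]
          rcases ind_rot hBA h hi k with h2 | h2
          · rw [h2, comp_zero]
          · rw [h2, h1]
        · rw [h1]
          rcases ind_rot hBA h hi k with h2 | h2
          · rw [h2, comp_zero]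
          · rw [h2, h1]
      · unfold Ind at hi
        push Not at hi
        obtain ⟨u, v, huv, hb1, hb2, hu, hv⟩ := hi
        have hpu := form_pos τ C hC u hu
        have hpv := form_pos τ C hC v hv
        have hsum : τ ((form C x x).coeff 1) =
            τ ((form C u u).coeff 1) + τ ((form C v v).coeff 1) := by
          rw [huv, form_add_left, form_add_right, form_add_right, MonoidAlgebra.coeff_add,
            MonoidAlgebra.coeff_add, MonoidAlgebra.coeff_add, Finsupp.add_apply, Finsupp.add_apply,
            Finsupp.add_apply, map_add, map_add, map_add, hb1, hb2]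
          ring
        have e1 := ih u (by omega)
        have e2 := ih v (by omega)
        rw [huv, rot_add, comp_add, comp_add, rot_add, e1, e2]
  exact key _ x le_rfl

end Pool.Agent.TH254.DF
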