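import Mathlib

/-!
The involution of a group ring `R[G]` over a ring `R` with involution, and constant matrices.
-/

set_option autoImplicit false

namespace Pool.Agent.TH254.DF

universe u v

variable {R : Type u} [Ring R] [StarRing R] {G : Type v} [Group G]

/-- the involution `∑ r_g g ↦ ∑ r_g^* g⁻¹` of `R[G]` -/
noncomputable def adj (a : MonoidAlgebra R G) : MonoidAlgebra R G :=
  MonoidAlgebra.ofCoeff ((a.coeff.mapRange star (star_zero R)).equivMapDomain (Equiv.inv G))

/-- the conjugate transpose of a matrix over `R[G]` -/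
noncomputable def adjT {n : ℕ} (A : Matrix (Fin n) (Fin n) (MonoidAlgebra R G)) :
    Matrix (Fin n) (Fin n) (MonoidAlgebra R G) :=
  (A.map adj).transpose

/-- a matrix over `R` as a matrix over `R[G]` -/
noncomputable def const (G : Type v) [Group G] {n : ℕ} (C : Matrix (Fin n) (Fin n) R) :
    Matrix (Fin n) (Fin n) (MonoidAlgebra R G) :=
  C.map (MonoidAlgebra.single 1)

/-- `C` is positive with respect to `τ : R → ℤ`: `τ (x C x^*) > 0` for every nonzero row vector
`x` over `R` -/
def Positive (τ : R →+ ℤ) {n : ℕ} (C : Matrix (Fin n) (Fin n) R) : Prop :=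
  ∀ x : Fin n → R, x ≠ 0 → 0 < τ (Matrix.vecMul x C ⬝ᵥ (fun l => star (x l)))

end Pool.Agent.TH254.DF
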