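import Pool.Agent.TH254.DF.Defs

/-!
The hermitian form of a constant matrix on row vectors over `R[G]`.
-/

set_option autoImplicit false

namespace Pool.Agent.TH254.DF

universe u v

open MonoidAlgebra (single)

variable {R : Type u} [Ring R] [StarRing R] {G : Type v} [Group G]

lemma adj_coeff (a : MonoidAlgebra R G) (g : G) : (adj a).coeff g = star (a.coeff g⁻¹) := rfl

lemma adj_add (a b : MonoidAlgebra R G) : adj (a + b) = adj a + adj b := by
  apply MonoidAlgebra.coeff_injective
  ext g
  rw [MonoidAlgebra.coeff_add, Finsupp.add_apply, adj_coeff, adj_coeff, adj_coeff,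
    MonoidAlgebra.coeff_add, Finsupp.add_apply, star_add]

lemma adj_zero : adj (0 : MonoidAlgebra R G) = 0 := by
  apply MonoidAlgebra.coeff_injective
  ext g
  rw [adj_coeff]; simp

/-- `adj` as an additive map -/
noncomputable def adjHom : MonoidAlgebra R G →+ MonoidAlgebra R G :=
  AddMonoidHom.mk' adj adj_add

lemma adj_sum {ι : Type*} (s : Finset ι) (f : ι → MonoidAlgebra R G) :
    adj (∑ i ∈ s, f i) = ∑ i ∈ s, adj (f i) := map_sum (adjHom (R := R) (G := G)) f s

lemma adj_single (g : G) (r : R) : adj (single g r) = single g⁻¹ (star r) := by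
  classical
  apply MonoidAlgebra.coeff_injective
  ext h
  rw [adj_coeff, MonoidAlgebra.coeff_single, MonoidAlgebra.coeff_single, Finsupp.single_apply,
    Finsupp.single_apply]
  by_cases hg : g = h⁻¹
  · rw [if_pos hg, if_pos (by rw [hg, inv_inv])]
  · rw [if_neg hg, if_neg (by
      intro h1; apply hg; rw [← h1, inv_inv]), star_zero]

lemma adj_mul (a b : MonoidAlgebra R G) : adj (a * b) = adj b * adj a := by
  induction a using MonoidAlgebra.induction_linear with
  | zero => rw [zero_mul, adj_zero, mul_zero]
  | add x y hx hy => rw [add_mul, adj_add, adj_add, hx, hy, mul_add]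
  | single g r =>
    induction b using MonoidAlgebra.induction_linear with
    | zero => rw [mul_zero, adj_zero, zero_mul]
    | add x y hx hy => rw [mul_add, adj_add, adj_add, hx, hy, add_mul]
    | single h t =>
      rw [MonoidAlgebra.single_mul_single, adj_single, adj_single, adj_single,
        MonoidAlgebra.single_mul_single, mul_inv_rev, star_mul]

lemma coeff_mul_adj (a b : MonoidAlgebra R G) (W : Finset G) (hW : b.coeff.support ⊆ W) :
    (a * adj b).coeff 1 = ∑ h ∈ W, a.coeff h * star (b.coeff h) := by
  classical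
  have h1 : adj b = ∑ h ∈ W, single h⁻¹ (star (b.coeff h)) := by
    have h2 : b = ∑ h ∈ W, single h (b.coeff h) := by
      conv_lhs => rw [← MonoidAlgebra.sum_coeff_single b, Finsupp.sum]
      refine Finset.sum_subset hW ?_
      intro h _ hh
      rw [Finsupp.notMem_support_iff.1 hh, MonoidAlgebra.single_zero]
    conv_lhs => rw [h2]
    rw [adj_sum]
    exact Finset.sum_congr rfl fun h _ => adj_single h _
  rw [h1, Finset.mul_sum, MonoidAlgebra.coeff_sum, Finsupp.finsetSum_apply]
  refine Finset.sum_congr rfl fun h _ => ?_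
  rw [MonoidAlgebra.coeff_mul_single_apply, inv_inv, one_mul]

variable {n : ℕ}

/-- the form `x C y^*` -/
noncomputable def form (C : Matrix (Fin n) (Fin n) R) (x y : Fin n → MonoidAlgebra R G) :
    MonoidAlgebra R G :=
  Matrix.vecMul x (const G C) ⬝ᵥ (fun l => adj (y l))

lemma form_add_left (C : Matrix (Fin n) (Fin n) R) (x x' y : Fin n → MonoidAlgebra R G) :
    form C (x + x') y = form C x y + form C x' y := by
  unfold form
  rw [Matrix.add_vecMul, add_dotProduct]

lemma form_add_right (C : Matrix (Fin n) (Fin n) R) (x y y' : Fin n → MonoidAlgebra R G) :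
    form C x (y + y') = form C x y + form C x y' := by
  unfold form
  rw [← dotProduct_add]
  congr 1
  funext l
  exact adj_add _ _

/-- transport of the form by a matrix -/
lemma form_vecMul (C C' : Matrix (Fin n) (Fin n) R) (A : Matrix (Fin n) (Fin n) (MonoidAlgebra R G))
    (h : A * const G C * adjT A = const G C') (x y : Fin n → MonoidAlgebra R G) :
    form C (Matrix.vecMul x A) (Matrix.vecMul y A) = form C' x y := by
  unfold form
  have h1 : (fun l => adj (Matrix.vecMul y A l)) = Matrix.mulVec (adjT A) (fun l => adj (y l)) := by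
    funext l
    rw [Matrix.vecMul, dotProduct, adj_sum, Matrix.mulVec, dotProduct]
    refine Finset.sum_congr rfl fun m _ => ?_
    rw [adj_mul]
    rfl
  rw [h1, Matrix.dotProduct_mulVec, Matrix.vecMul_vecMul, Matrix.vecMul_vecMul, ← h]
  rw [← mul_assoc]

/-- the support of a row vector -/
noncomputable def supp (y : Fin n → MonoidAlgebra R G) : Finset G := by
  classical
  exact Finset.univ.biUnion fun l => (y l).coeff.support

lemma support_subset (y : Fin n → MonoidAlgebra R G) (l : Fin n) :
    (y l).coeff.support ⊆ supp y := by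
  classical
  intro h hh
  exact Finset.mem_biUnion.2 ⟨l, Finset.mem_univ l, hh⟩

/-- the value at `h` -/
def at' (y : Fin n → MonoidAlgebra R G) (h : G) : Fin n → R := fun l => (y l).coeff h

lemma at_ne_zero {y : Fin n → MonoidAlgebra R G} {h : G} (hh : h ∈ supp y) : at' y h ≠ 0 := by
  classical
  obtain ⟨l, -, hl⟩ := Finset.mem_biUnion.1 hh
  intro h0
  exact Finsupp.mem_support_iff.1 hl (congrFun h0 l)

lemma coeff_vecMul_const (C : Matrix (Fin n) (Fin n) R) (x : Fin n → MonoidAlgebra R G)
    (l : Fin n) (h : G) :
    (Matrix.vecMul x (const G C) l).coeff h = Matrix.vecMul (at' x h) C l := by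
  rw [Matrix.vecMul, dotProduct, MonoidAlgebra.coeff_sum, Finsupp.finsetSum_apply, Matrix.vecMul,
    dotProduct]
  refine Finset.sum_congr rfl fun k _ => ?_
  change (x k * single 1 (C k l)).coeff h = _
  rw [MonoidAlgebra.coeff_mul_single_apply, inv_one, mul_one]
  rfl

lemma coeff_form (C : Matrix (Fin n) (Fin n) R) (x y : Fin n → MonoidAlgebra R G) :
    (form C x y).coeff 1 =
      ∑ h ∈ supp y, Matrix.vecMul (at' x h) C ⬝ᵥ (fun l => star (at' y h l)) := by
  unfold form
  rw [dotProduct, MonoidAlgebra.coeff_sum, Finsupp.finsetSum_apply]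
  have h1 : ∀ l, (Matrix.vecMul x (const G C) l * adj (y l)).coeff 1 =
      ∑ h ∈ supp y, Matrix.vecMul (at' x h) C l * star (at' y h l) := by
    intro l
    rw [coeff_mul_adj _ _ (supp y) (support_subset y l)]
    refine Finset.sum_congr rfl fun h _ => ?_
    rw [coeff_vecMul_const]
    rfl
  rw [Finset.sum_congr rfl (fun l _ => h1 l), Finset.sum_comm]
  rfl

/-- vectors with disjoint supports are orthogonal -/
lemma form_disjoint (C : Matrix (Fin n) (Fin n) R) (x y : Fin n → MonoidAlgebra R G)
    (h : ∀ g, at' x g = 0 ∨ at' y g = 0) : (form C x y).coeff 1 = 0 := by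
  rw [coeff_form]
  refine Finset.sum_eq_zero fun g hg => ?_
  rcases h g with h | h
  · rw [h, Matrix.zero_vecMul, zero_dotProduct]
  · exact absurd h (at_ne_zero hg)

/-- positivity -/
lemma form_pos (τ : R →+ ℤ) (C : Matrix (Fin n) (Fin n) R) (hC : Positive τ C)
    (x : Fin n → MonoidAlgebra R G) (hx : x ≠ 0) : 0 < τ ((form C x x).coeff 1) := by
  rw [coeff_form, map_sum]
  have hne : (supp x).Nonempty := by
    by_contra hcon
    rw [Finset.not_nonempty_iff_eq_empty] at hcon
    apply hx
    funext l
    apply MonoidAlgebra.coeff_injective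
    have h1 := support_subset x l
    rw [hcon, Finset.subset_empty, Finsupp.support_eq_empty] at h1
    rw [h1]; rfl
  exact Finset.sum_pos (fun h hh => hC _ (at_ne_zero hh)) hne

end Pool.Agent.TH254.DF
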