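import Pool.Agent.TH254.DF.Proj

/-!
Positive hermitian forms over `R[G]` whose matrix has its entries in `R[H]`.
-/

set_option autoImplicit false

namespace Pool.Agent.TH254.DF

universe u v

open MonoidAlgebra (single)

section supp

variable {R : Type u} [Ring R] {G : Type v} [Group G] {n : ℕ}

/-- `a` is supported on `S` -/
def SuppOn (S : Set G) (a : MonoidAlgebra R G) : Prop := ∀ g, g ∉ S → a.coeff g = 0

/-- the part of `a` supported on `S` -/
noncomputable def res (S : Set G) (a : MonoidAlgebra R G) : MonoidAlgebra R G := by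
  classical
  exact MonoidAlgebra.ofCoeff (a.coeff.filter (fun g => g ∈ S))

lemma res_mem {S : Set G} (a : MonoidAlgebra R G) {g : G} (h : g ∈ S) :
    (res S a).coeff g = a.coeff g := by
  classical
  exact Finsupp.filter_apply_pos (fun g => g ∈ S) _ h

lemma res_notMem {S : Set G} (a : MonoidAlgebra R G) {g : G} (h : g ∉ S) :
    (res S a).coeff g = 0 := by
  classical
  exact Finsupp.filter_apply_neg (fun g => g ∈ S) _ h

lemma res_supp (S : Set G) (a : MonoidAlgebra R G) : SuppOn S (res S a) :=
  fun _ hg => res_notMem a hg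

lemma res_of_supp {S : Set G} {a : MonoidAlgebra R G} (h : SuppOn S a) : res S a = a := by
  apply MonoidAlgebra.coeff_injective
  ext g
  by_cases hg : g ∈ S
  · exact res_mem a hg
  · rw [res_notMem a hg, h g hg]

lemma supp_of_res {S : Set G} {a : MonoidAlgebra R G} (h : res S a = a) : SuppOn S a := by
  rw [← h]; exact res_supp S a

lemma res_add (S : Set G) (a b : MonoidAlgebra R G) : res S (a + b) = res S a + res S b := by
  apply MonoidAlgebra.coeff_injective
  ext g
  rw [MonoidAlgebra.coeff_add, Finsupp.add_apply]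
  by_cases hg : g ∈ S
  · rw [res_mem _ hg, res_mem _ hg, res_mem _ hg, MonoidAlgebra.coeff_add, Finsupp.add_apply]
  · rw [res_notMem _ hg, res_notMem _ hg, res_notMem _ hg, add_zero]

lemma supp_zero (S : Set G) : SuppOn S (0 : MonoidAlgebra R G) := fun _ _ => rfl

lemma supp_add {S : Set G} {a b : MonoidAlgebra R G} (ha : SuppOn S a) (hb : SuppOn S b) :
    SuppOn S (a + b) := by
  intro g hg
  rw [MonoidAlgebra.coeff_add, Finsupp.add_apply, ha g hg, hb g hg, add_zero]

lemma supp_sum {ι : Type*} {S : Set G} (s : Finset ι) (f : ι → MonoidAlgebra R G)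
    (h : ∀ i ∈ s, SuppOn S (f i)) : SuppOn S (∑ i ∈ s, f i) := by
  intro g hg
  rw [MonoidAlgebra.coeff_sum, Finsupp.finsetSum_apply]
  exact Finset.sum_eq_zero fun i hi => h i hi g hg

lemma supp_sub_res (S : Set G) (a : MonoidAlgebra R G) : SuppOn Sᶜ (a - res S a) := by
  intro g hg
  rw [MonoidAlgebra.coeff_sub, Finsupp.sub_apply, res_mem a (by simpa using hg), sub_self]

/-- products and supports -/
lemma supp_mul {S T U : Set G} (h : ∀ s ∈ S, ∀ t ∈ T, s * t ∈ U) {a b : MonoidAlgebra R G}
    (ha : SuppOn S a) (hb : SuppOn T b) : SuppOn U (a * b) := by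
  classical
  intro g hg
  have h1 : b = ∑ k ∈ b.coeff.support, single k (b.coeff k) := by
    conv_lhs => rw [← MonoidAlgebra.sum_coeff_single b, Finsupp.sum]
  rw [h1, Finset.mul_sum, MonoidAlgebra.coeff_sum, Finsupp.finsetSum_apply]
  refine Finset.sum_eq_zero fun k hk => ?_
  rw [MonoidAlgebra.coeff_mul_single_apply]
  by_cases h2 : g * k⁻¹ ∈ S
  · by_cases h3 : k ∈ T
    · exact absurd (by rw [← inv_mul_cancel_right g k]; exact h _ h2 _ h3) hg
    · rw [hb k h3, mul_zero]
  · rw [ha _ h2, zero_mul]

/-- the part of a row vector supported on `S` -/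
noncomputable def resV (S : Set G) (x : Fin n → MonoidAlgebra R G) : Fin n → MonoidAlgebra R G :=
  fun l => res S (x l)

lemma resV_add (S : Set G) (x y : Fin n → MonoidAlgebra R G) :
    resV S (x + y) = resV S x + resV S y := by
  funext l
  exact res_add S _ _

/-- the part of a matrix supported on `S` -/
noncomputable def resM (S : Set G) (A : Matrix (Fin n) (Fin n) (MonoidAlgebra R G)) :
    Matrix (Fin n) (Fin n) (MonoidAlgebra R G) :=
  A.map (res S)

/-- the entries of `A` are supported on `S` -/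
def EntriesIn (S : Set G) (A : Matrix (Fin n) (Fin n) (MonoidAlgebra R G)) : Prop :=
  ∀ i j, SuppOn S (A i j)

lemma entries_mul {S T U : Set G} (h : ∀ s ∈ S, ∀ t ∈ T, s * t ∈ U)
    {A B : Matrix (Fin n) (Fin n) (MonoidAlgebra R G)} (hA : EntriesIn S A) (hB : EntriesIn T B) :
    EntriesIn U (A * B) := by
  intro i j
  rw [Matrix.mul_apply]
  exact supp_sum _ _ fun k _ => supp_mul h (hA i k) (hB k j)

lemma vecMul_supp {S T U : Set G} (h : ∀ s ∈ S, ∀ t ∈ T, s * t ∈ U)
    {x : Fin n → MonoidAlgebra R G} {B : Matrix (Fin n) (Fin n) (MonoidAlgebra R G)}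
    (hx : ∀ l, SuppOn S (x l)) (hB : EntriesIn T B) (l : Fin n) : SuppOn U (Matrix.vecMul x B l) :=
  supp_sum _ _ fun k _ => supp_mul h (hx k) (hB k l)

end supp

variable {R : Type u} [Ring R] [StarRing R] {G : Type v} [Group G] {n : ℕ}

/-- the form `x C y^*` -/
noncomputable def gform (C : Matrix (Fin n) (Fin n) (MonoidAlgebra R G))
    (x y : Fin n → MonoidAlgebra R G) : MonoidAlgebra R G :=
  Matrix.vecMul x C ⬝ᵥ (fun l => adj (y l))

/-- `C` is positive: `τ ((x C x^*)_1) > 0` for every nonzero row vector `x` over `R[G]` -/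
def GPositive (τ : R →+ ℤ) (C : Matrix (Fin n) (Fin n) (MonoidAlgebra R G)) : Prop :=
  ∀ x : Fin n → MonoidAlgebra R G, x ≠ 0 → 0 < τ ((gform C x x).coeff 1)

lemma gform_add_left (C : Matrix (Fin n) (Fin n) (MonoidAlgebra R G))
    (x x' y : Fin n → MonoidAlgebra R G) : gform C (x + x') y = gform C x y + gform C x' y := by
  unfold gform
  rw [Matrix.add_vecMul, add_dotProduct]

lemma gform_add_right (C : Matrix (Fin n) (Fin n) (MonoidAlgebra R G))
    (x y y' : Fin n → MonoidAlgebra R G) : gform C x (y + y') = gform C x y + gform C x y' := by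
  unfold gform
  rw [← dotProduct_add]
  congr 1
  funext l
  exact adj_add _ _

lemma gform_zero_right (C : Matrix (Fin n) (Fin n) (MonoidAlgebra R G))
    (x : Fin n → MonoidAlgebra R G) : gform C x 0 = 0 := by
  have := gform_add_right C x 0 0
  rw [add_zero] at this
  exact left_eq_add.1 this

lemma adj_vecMul (A : Matrix (Fin n) (Fin n) (MonoidAlgebra R G)) (y : Fin n → MonoidAlgebra R G) :
    (fun l => adj (Matrix.vecMul y A l)) = Matrix.mulVec (adjT A) (fun l => adj (y l)) := by
  funext l
  rw [Matrix.vecMul, dotProduct, adj_sum, Matrix.mulVec, dotProduct]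
  refine Finset.sum_congr rfl fun m _ => ?_
  rw [adj_mul]
  rfl

/-- transport of the form by a matrix -/
lemma gform_vecMul (C A : Matrix (Fin n) (Fin n) (MonoidAlgebra R G))
    (x y : Fin n → MonoidAlgebra R G) :
    gform C (Matrix.vecMul x A) (Matrix.vecMul y A) = gform (A * C * adjT A) x y := by
  unfold gform
  rw [adj_vecMul, Matrix.dotProduct_mulVec, Matrix.vecMul_vecMul, Matrix.vecMul_vecMul,
    ← mul_assoc]

/-- vectors with supports in disjoint right `H`-invariant sets are orthogonal -/
lemma gform_disjoint {C : Matrix (Fin n) (Fin n) (MonoidAlgebra R G)} {H : Set G}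
    (hC : EntriesIn H C) {S : Set G} (hS : ∀ s ∈ S, ∀ h ∈ H, s * h ∈ S)
    {x y : Fin n → MonoidAlgebra R G} (hx : ∀ l, SuppOn S (x l)) (hy : ∀ l, SuppOn Sᶜ (y l)) :
    (gform C x y).coeff 1 = 0 := by
  unfold gform
  rw [dotProduct, MonoidAlgebra.coeff_sum, Finsupp.finsetSum_apply]
  refine Finset.sum_eq_zero fun l _ => ?_
  rw [coeff_mul_adj _ _ _ (Finset.Subset.refl _)]
  refine Finset.sum_eq_zero fun g hg => ?_
  have h1 : g ∉ S := by
    intro h2
    exact Finsupp.mem_support_iff.1 hg (hy l g (by simpa using h2))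
  rw [vecMul_supp hS hx hC l g h1, zero_mul]

/-- indecomposable row vectors -/
def GInd (τ : R →+ ℤ) (C : Matrix (Fin n) (Fin n) (MonoidAlgebra R G))
    (x : Fin n → MonoidAlgebra R G) : Prop :=
  ∀ u v : Fin n → MonoidAlgebra R G, x = u + v → τ ((gform C u v).coeff 1) = 0 →
    τ ((gform C v u).coeff 1) = 0 → u = 0 ∨ v = 0

/-- an operator which splits every vector orthogonally -/
def Splits (C : Matrix (Fin n) (Fin n) (MonoidAlgebra R G))
    (f : (Fin n → MonoidAlgebra R G) → (Fin n → MonoidAlgebra R G)) : Prop :=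
  (∀ x y, f (x + y) = f x + f y) ∧
    ∀ x, (gform C (f x) (x - f x)).coeff 1 = 0 ∧ (gform C (x - f x) (f x)).coeff 1 = 0

/-- **splitting operators commute** -/
theorem splits_comm {τ : R →+ ℤ} {C : Matrix (Fin n) (Fin n) (MonoidAlgebra R G)}
    (hC : GPositive τ C) {f k : (Fin n → MonoidAlgebra R G) → (Fin n → MonoidAlgebra R G)}
    (hf : Splits C f) (hk : Splits C k) (x : Fin n → MonoidAlgebra R G) : f (k x) = k (f x) := by
  have hf0 : f 0 = 0 := by
    have := hf.1 0 0
    rw [add_zero] at this
    exact left_eq_add.1 this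
  have hk0 : k 0 = 0 := by
    have := hk.1 0 0
    rw [add_zero] at this
    exact left_eq_add.1 this
  have hind : ∀ {f : (Fin n → MonoidAlgebra R G) → (Fin n → MonoidAlgebra R G)}, Splits C f →
      ∀ x, GInd τ C x → f x = 0 ∨ f x = x := by
    intro f hf x hx
    obtain ⟨h1, h2⟩ := hf.2 x
    rcases hx (f x) (x - f x) (by abel) (by rw [h1, map_zero]) (by rw [h2, map_zero]) with h | h
    · left; exact h
    · right; exact (sub_eq_zero.1 h).symm
  have key : ∀ (N : ℕ) (x : Fin n → MonoidAlgebra R G), (τ ((gform C x x).coeff 1)).toNat ≤ N →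
      f (k x) = k (f x) := by
    intro N
    induction N with
    | zero =>
      intro x hx
      have hx0 : x = 0 := by
        by_contra hne
        have := hC x hne
        omega
      rw [hx0, hk0, hf0, hk0]
    | succ N ih =>
      intro x hx
      by_cases hi : GInd τ C x
      · rcases hind hf x hi with h1 | h1
        · rw [h1, hk0]
          rcases hind hk x hi with h2 | h2
          · rw [h2, hf0]
          · rw [h2, h1]
        · rw [h1]
          rcases hind hk x hi with h2 | h2
          · rw [h2, hf0]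
          · rw [h2, h1]
      · unfold GInd at hi
        push Not at hi
        obtain ⟨u, v, huv, hb1, hb2, hu, hv⟩ := hi
        have hpu := hC u hu
        have hpv := hC v hv
        have hsum : τ ((gform C x x).coeff 1) =
            τ ((gform C u u).coeff 1) + τ ((gform C v v).coeff 1) := by
          rw [huv, gform_add_left, gform_add_right, gform_add_right, MonoidAlgebra.coeff_add,
            MonoidAlgebra.coeff_add, MonoidAlgebra.coeff_add, Finsupp.add_apply, Finsupp.add_apply,
            Finsupp.add_apply, map_add, map_add, map_add, hb1, hb2]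
          ring
        have e1 := ih u (by omega)
        have e2 := ih v (by omega)
        rw [huv, hk.1, hf.1, hf.1, hk.1, e1, e2]
  exact key _ x le_rfl

/-- restriction to a right `H`-invariant set splits -/
lemma splits_res {C : Matrix (Fin n) (Fin n) (MonoidAlgebra R G)} {H : Subgroup G}
    (hC : EntriesIn (H : Set G) C) {S : Set G} (hS : ∀ s ∈ S, ∀ h ∈ H, s * h ∈ S) :
    Splits C (resV (n := n) S) := by
  have hSc : ∀ s ∈ Sᶜ, ∀ h ∈ H, s * h ∈ Sᶜ := by
    intro s hs h hh hsh
    apply hs
    have := hS _ hsh h⁻¹ (H.inv_mem hh)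
    rwa [mul_inv_cancel_right] at this
  refine ⟨resV_add S, fun x => ⟨?_, ?_⟩⟩
  · exact gform_disjoint hC hS (fun l => res_supp S _) (fun l => supp_sub_res S _)
  · refine gform_disjoint hC hSc (fun l => supp_sub_res S _) (fun l => ?_)
    rw [compl_compl]
    exact res_supp S _

/-- the transported restriction splits -/
lemma splits_rot {C A B : Matrix (Fin n) (Fin n) (MonoidAlgebra R G)} (hBA : B * A = 1)
    {H' : Subgroup G} (hC' : EntriesIn (H' : Set G) (A * C * adjT A)) {T : Set G}
    (hT : ∀ t ∈ T, ∀ h ∈ H', t * h ∈ T) :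
    Splits C (fun x => Matrix.vecMul (resV T (Matrix.vecMul x B)) A) := by
  have h0 := splits_res hC' hT
  refine ⟨fun x y => ?_, fun x => ?_⟩
  · change Matrix.vecMul (resV T (Matrix.vecMul (x + y) B)) A =
      Matrix.vecMul (resV T (Matrix.vecMul x B)) A + Matrix.vecMul (resV T (Matrix.vecMul y B)) A
    rw [Matrix.add_vecMul, resV_add, Matrix.add_vecMul]
  · set y := Matrix.vecMul x B with hy
    have hxy : x = Matrix.vecMul y A := by
      rw [hy, Matrix.vecMul_vecMul, hBA, Matrix.vecMul_one]
    have h4 : x - Matrix.vecMul (resV T y) A = Matrix.vecMul (y - resV T y) A := by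
      rw [Matrix.sub_vecMul, ← hxy]
    obtain ⟨h1, h2⟩ := h0.2 y
    change (gform C (Matrix.vecMul (resV T y) A) (x - Matrix.vecMul (resV T y) A)).coeff 1 = 0 ∧
      (gform C (x - Matrix.vecMul (resV T y) A) (Matrix.vecMul (resV T y) A)).coeff 1 = 0
    rw [h4, gform_vecMul, gform_vecMul]
    exact ⟨h1, h2⟩

/-- self-adjoint idempotents split -/
lemma splits_proj {C p : Matrix (Fin n) (Fin n) (MonoidAlgebra R G)} (hpp : p * p = p)
    (hp : p * C = C * adjT p) : Splits C (fun x => Matrix.vecMul x p) := by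
  have hsa : ∀ x y : Fin n → MonoidAlgebra R G,
      gform C (Matrix.vecMul x p) y = gform C x (Matrix.vecMul y p) := by
    intro x y
    unfold gform
    rw [adj_vecMul, Matrix.dotProduct_mulVec, Matrix.vecMul_vecMul, Matrix.vecMul_vecMul, hp]
  refine ⟨fun x y => Matrix.add_vecMul _ _ _, fun x => ?_⟩
  have h1 : Matrix.vecMul (x - Matrix.vecMul x p) p = 0 := by
    rw [Matrix.sub_vecMul, Matrix.vecMul_vecMul, hpp, sub_self]
  constructor
  · change (gform C (Matrix.vecMul x p) (x - Matrix.vecMul x p)).coeff 1 = 0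
    rw [hsa, h1, gform_zero_right]; rfl
  · change (gform C (x - Matrix.vecMul x p) (Matrix.vecMul x p)).coeff 1 = 0
    rw [← hsa, h1]
    unfold gform
    rw [Matrix.zero_vecMul, zero_dotProduct]; rfl

lemma resV_one {S : Set G} (h1 : (1 : G) ∈ S) (i : Fin n) :
    resV S ((1 : Matrix (Fin n) (Fin n) (MonoidAlgebra R G)) i) =
      (1 : Matrix (Fin n) (Fin n) (MonoidAlgebra R G)) i := by
  classical
  funext j
  refine res_of_supp ?_
  intro g hg
  rw [Matrix.one_apply]
  by_cases hij : i = j
  · rw [if_pos hij, MonoidAlgebra.one_def, MonoidAlgebra.coeff_single, Finsupp.single_apply,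
      if_neg]
    rintro rfl
    exact hg h1
  · rw [if_neg hij]; rfl

/-- **self-adjoint idempotents have their entries in `R[H]`** -/
theorem proj_entries {τ : R →+ ℤ} {C p : Matrix (Fin n) (Fin n) (MonoidAlgebra R G)}
    (hpos : GPositive τ C) {H : Subgroup G} (hC : EntriesIn (H : Set G) C) (hpp : p * p = p)
    (hp : p * C = C * adjT p) : EntriesIn (H : Set G) p := by
  intro i j
  have h1 := splits_comm hpos (splits_res hC (S := (H : Set G)) (fun s hs h hh => H.mul_mem hs hh))
    (splits_proj hpp hp) ((1 : Matrix (Fin n) (Fin n) (MonoidAlgebra R G)) i)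
  have h4 : Matrix.vecMul ((1 : Matrix (Fin n) (Fin n) (MonoidAlgebra R G)) i) p = p i := by
    have h5 : (1 : Matrix (Fin n) (Fin n) (MonoidAlgebra R G)) * p = p := one_mul p
    exact congrFun h5 i
  change resV (H : Set G) (Matrix.vecMul ((1 : Matrix (Fin n) (Fin n) (MonoidAlgebra R G)) i) p) =
    Matrix.vecMul (resV (H : Set G) ((1 : Matrix (Fin n) (Fin n) (MonoidAlgebra R G)) i)) p at h1
  rw [resV_one H.one_mem, h4] at h1
  exact supp_of_res (congrFun h1 j)

end Pool.Agent.TH254.DF
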