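import Pool.Agent.TH254.DF.Core

/-!
The orthogonal idempotents `E_g` over `R` with `A = (∑ E_g g) W`.
-/

set_option autoImplicit false

namespace Pool.Agent.TH254.DF

universe u v

open MonoidAlgebra (single)

section aug

variable {R : Type u} [Ring R] {G : Type v} [Group G] {n : ℕ}

/-- the augmentation of `R[G]` -/
noncomputable def aug : MonoidAlgebra R G →+* R :=
  MonoidAlgebra.liftNCRingHom (RingHom.id R) (1 : G →* R) (fun _ _ => Commute.one_right _)

lemma aug_single (g : G) (r : R) : aug (single g r) = r := by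
  unfold aug
  rw [MonoidAlgebra.liftNCRingHom_single]
  simp

lemma aug_eq_sum (a : MonoidAlgebra R G) (S : Finset G) (h : a.coeff.support ⊆ S) :
    aug a = ∑ g ∈ S, a.coeff g := by
  conv_lhs => rw [← MonoidAlgebra.sum_coeff_single a, Finsupp.sum, map_sum]
  rw [Finset.sum_congr rfl (fun g _ => aug_single g (a.coeff g))]
  refine Finset.sum_subset h ?_
  intro g _ hg
  exact Finsupp.notMem_support_iff.1 hg

/-- the coefficient matrix at `g` -/
def mat (A : Matrix (Fin n) (Fin n) (MonoidAlgebra R G)) (g : G) : Matrix (Fin n) (Fin n) R :=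
  fun i j => (A i j).coeff g

end aug

variable {R : Type u} [Ring R] [StarRing R] {G : Type v} [Group G] {n : ℕ}

/-- the idempotents -/
noncomputable def E (A B : Matrix (Fin n) (Fin n) (MonoidAlgebra R G)) (g : G) :
    Matrix (Fin n) (Fin n) R :=
  fun i j => (Matrix.vecMul (comp g (A i)) B j).coeff 1

variable {τ : R →+ ℤ} {C C' : Matrix (Fin n) (Fin n) R} {A B : Matrix (Fin n) (Fin n) (MonoidAlgebra R G)}

lemma rot_row (hAB : A * B = 1) (i : Fin n) : rot A B 1 (A i) = A i := by
  classical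
  have h1 : Matrix.vecMul (A i) B = (1 : Matrix (Fin n) (Fin n) (MonoidAlgebra R G)) i := by
    rw [← hAB]; rfl
  have h2 : comp (1 : G) ((1 : Matrix (Fin n) (Fin n) (MonoidAlgebra R G)) i) =
      (1 : Matrix (Fin n) (Fin n) (MonoidAlgebra R G)) i := by
    funext j
    change single 1 (((1 : Matrix (Fin n) (Fin n) (MonoidAlgebra R G)) i j).coeff 1) = _
    rw [Matrix.one_apply]
    by_cases hij : i = j
    · rw [if_pos hij, MonoidAlgebra.one_def, MonoidAlgebra.coeff_single, Finsupp.single_eq_same]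
    · rw [if_neg hij]; simp
  unfold rot
  rw [h1, h2]
  have h3 : (1 : Matrix (Fin n) (Fin n) (MonoidAlgebra R G)) * A = A := one_mul A
  exact congrFun h3 i

lemma row_eq (hC : Positive τ C) (hAB : A * B = 1) (hBA : B * A = 1)
    (h : A * const G C * adjT A = const G C') (g : G) (i : Fin n) :
    comp g (A i) = Matrix.vecMul (fun j => single 1 (E A B g i j)) A := by
  have h1 := comp_rot hC hBA h g 1 (A i)
  rw [rot_row hAB] at h1
  exact h1

lemma mat_eq (hC : Positive τ C) (hAB : A * B = 1) (hBA : B * A = 1)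
    (h : A * const G C * adjT A = const G C') (g : G) :
    E A B g * A.map aug = mat A g := by
  ext i k
  have h1 := congrArg aug (congrFun (row_eq hC hAB hBA h g i) k)
  rw [Matrix.vecMul, dotProduct, map_sum] at h1
  have h2 : aug (comp g (A i) k) = mat A g i k := aug_single g _
  rw [← h2, h1, Matrix.mul_apply]
  refine Finset.sum_congr rfl fun j _ => ?_
  rw [map_mul, aug_single]
  rfl

lemma mul_mat (hC : Positive τ C) (hAB : A * B = 1) (hBA : B * A = 1)
    (h : A * const G C * adjT A = const G C') {g k : G} (hgk : g ≠ k) :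
    E A B g * mat A k = 0 := by
  ext i l
  have h1 := congrArg (fun a : MonoidAlgebra R G => a.coeff k)
    (congrFun (row_eq hC hAB hBA h g i) l)
  have h2 : (comp g (A i) l).coeff k = 0 := congrFun (at_comp_ne hgk (A i)) l
  change (comp g (A i) l).coeff k = _ at h1
  rw [h2, Matrix.vecMul, dotProduct] at h1
  change 0 = (∑ j, single 1 (E A B g i j) * A j l).coeff k at h1
  rw [MonoidAlgebra.coeff_sum, Finsupp.finsetSum_apply] at h1
  rw [Matrix.mul_apply, Matrix.zero_apply]
  refine Eq.trans ?_ h1.symm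
  refine Finset.sum_congr rfl fun j _ => ?_
  rw [MonoidAlgebra.coeff_single_mul_apply, inv_one, one_mul]
  rfl

/-- **the general theorem** -/
theorem main (A₀ : (Matrix (Fin n) (Fin n) (MonoidAlgebra R G))ˣ) (hC : Positive τ C)
    (h : (A₀ : Matrix (Fin n) (Fin n) (MonoidAlgebra R G)) * const G C *
      adjT (A₀ : Matrix (Fin n) (Fin n) (MonoidAlgebra R G)) = const G C') :
    ∃ (W : (Matrix (Fin n) (Fin n) R)ˣ) (S : Finset G) (E : G → Matrix (Fin n) (Fin n) R),
      (∀ g, g ∉ S → E g = 0) ∧ (∀ g, E g * E g = E g) ∧ (∀ g k, g ≠ k → E g * E k = 0) ∧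
      ∑ g ∈ S, E g = 1 ∧
      ∀ g i j, ((A₀ : Matrix (Fin n) (Fin n) (MonoidAlgebra R G)) i j).coeff g =
        (E g * (W : Matrix (Fin n) (Fin n) R)) i j := by
  classical
  set A' : Matrix (Fin n) (Fin n) (MonoidAlgebra R G) := A₀.val with hA'
  set B' : Matrix (Fin n) (Fin n) (MonoidAlgebra R G) :=
    (A₀⁻¹).val with hB'
  have hAB : A' * B' = 1 := A₀.mul_inv
  have hBA : B' * A' = 1 := A₀.inv_mul
  let f : Matrix (Fin n) (Fin n) (MonoidAlgebra R G) →+* Matrix (Fin n) (Fin n) R :=
    (aug (R := R) (G := G)).mapMatrix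
  let W : (Matrix (Fin n) (Fin n) R)ˣ :=
    ⟨f A', f B', by rw [← map_mul, hAB, map_one], by rw [← map_mul, hBA, map_one]⟩
  have hW : (W : Matrix (Fin n) (Fin n) R) = A'.map aug := rfl
  have hm : ∀ g, E A' B' g * (W : Matrix (Fin n) (Fin n) R) = mat A' g := fun g => by
    rw [hW]; exact mat_eq hC hAB hBA h g
  have hE : ∀ g, E A' B' g = mat A' g * ((W⁻¹ : (Matrix (Fin n) (Fin n) R)ˣ) : Matrix _ _ _) := by
    intro g
    rw [← hm g, mul_assoc, W.mul_inv, mul_one]
  have hEE : ∀ g k, g ≠ k → E A' B' g * E A' B' k = 0 := by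
    intro g k hgk
    rw [hE k, ← mul_assoc, mul_mat hC hAB hBA h hgk, zero_mul]
  set S : Finset G := Finset.univ.biUnion fun i => Finset.univ.biUnion fun j =>
    (A' i j).coeff.support with hS
  have hSs : ∀ i j, (A' i j).coeff.support ⊆ S := by
    intro i j g hg
    exact Finset.mem_biUnion.2 ⟨i, Finset.mem_univ _, Finset.mem_biUnion.2
      ⟨j, Finset.mem_univ _, hg⟩⟩
  have hsum : ∑ g ∈ S, mat A' g = (W : Matrix (Fin n) (Fin n) R) := by
    ext i j
    rw [Matrix.sum_apply, hW, Matrix.map_apply, aug_eq_sum _ S (hSs i j)]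
    rfl
  have h1 : ∑ g ∈ S, E A' B' g = 1 := by
    rw [Finset.sum_congr rfl (fun g _ => hE g), ← Finset.sum_mul, hsum, W.mul_inv]
  have h0 : ∀ g, g ∉ S → E A' B' g = 0 := by
    intro g hg
    rw [hE g]
    have : mat A' g = 0 := by
      ext i j
      change (A' i j).coeff g = 0
      by_contra hne
      exact hg (hSs i j (Finsupp.mem_support_iff.2 hne))
    rw [this, zero_mul]
  refine ⟨W, S, E A' B', h0, ?_, hEE, h1, ?_⟩
  · intro g
    by_cases hg : g ∈ S
    · have h2 : E A' B' g * ∑ k ∈ S, E A' B' k = E A' B' g * E A' B' g := by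
        rw [Finset.mul_sum]
        refine Finset.sum_eq_single_of_mem g hg ?_
        intro k _ hk
        exact hEE g k (Ne.symm hk)
      rw [h1, mul_one] at h2
      exact h2.symm
    · rw [h0 g hg, zero_mul]
  · intro g i j
    rw [hm g]
    rfl

end Pool.Agent.TH254.DF
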