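import Pool.Agent.TH254.DF.Idem

/-!
Integral coefficients: orthogonal idempotent matrices with sum one are simultaneously diagonal
in a basis.
-/

set_option autoImplicit false

namespace Pool.Agent.TH254.DF

universe v

open MonoidAlgebra (single)

variable {G : Type v} {n : ℕ}

/-- simultaneous diagonalisation over `ℤ` -/
theorem diagonalise (S : Finset G) (E : G → Matrix (Fin n) (Fin n) ℤ)
    (hE : ∀ g, E g * E g = E g) (hEE : ∀ g k, g ≠ k → E g * E k = 0) (h1 : ∑ g ∈ S, E g = 1) :
    ∃ (P : (Matrix (Fin n) (Fin n) ℤ)ˣ) (γ : Fin n → G), ∀ g j,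
      (γ j = g → Matrix.vecMul (P.val j) (E g) = P.val j) ∧
      (γ j ≠ g → Matrix.vecMul (P.val j) (E g) = 0) := by
  classical
  let N : S → Submodule ℤ (Fin n → ℤ) := fun g =>
    LinearMap.range (Matrix.vecMulLinear (E g))
  have hN : ∀ (g : S) (x : Fin n → ℤ), x ∈ N g → Matrix.vecMul x (E g) = x := by
    rintro g _ ⟨y, rfl⟩
    change Matrix.vecMul (Matrix.vecMul y (E g)) (E g) = Matrix.vecMul y (E g)
    rw [Matrix.vecMul_vecMul, hE]
  have hN' : ∀ (g : S) (x : Fin n → ℤ) (k : G), x ∈ N g → (g : G) ≠ k →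
      Matrix.vecMul x (E k) = 0 := by
    intro g x k hx hgk
    rw [← hN g x hx, Matrix.vecMul_vecMul, hEE _ _ hgk, Matrix.vecMul_zero]
  let e : (Fin n → ℤ) ≃ₗ[ℤ] (∀ g : S, N g) :=
    { toFun := fun x g => ⟨Matrix.vecMul x (E g), ⟨x, rfl⟩⟩
      map_add' := fun x y => by
        funext g
        apply Subtype.ext
        change Matrix.vecMul (x + y) (E g) = Matrix.vecMul x (E g) + Matrix.vecMul y (E g)
        exact Matrix.add_vecMul _ _ _
      map_smul' := fun c x => by
        funext g
        apply Subtype.ext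
        change Matrix.vecMul (c • x) (E g) = c • Matrix.vecMul x (E g)
        exact Matrix.smul_vecMul _ _ _
      invFun := fun y => ∑ g, (y g : Fin n → ℤ)
      left_inv := fun x => by
        change ∑ g : S, Matrix.vecMul x (E g) = x
        rw [Finset.sum_coe_sort S (fun g => Matrix.vecMul x (E g)), ← Matrix.vecMul_sum, h1,
          Matrix.vecMul_one]
      right_inv := fun y => by
        funext g
        apply Subtype.ext
        change Matrix.vecMul (∑ k, (y k : Fin n → ℤ)) (E g) = y g
        rw [Matrix.sum_vecMul, Finset.sum_eq_single g]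
        · exact hN g _ (y g).2
        · intro k _ hk
          exact hN' k _ _ (y k).2 (fun h => hk (Subtype.ext h))
        · intro h; exact absurd (Finset.mem_univ g) h }
  let b0 : ∀ g : S, Module.Basis (Module.Free.ChooseBasisIndex ℤ (N g)) ℤ (N g) :=
    fun g => Module.Free.chooseBasis ℤ (N g)
  let b : Module.Basis (Σ g : S, Module.Free.ChooseBasisIndex ℤ (N g)) ℤ (Fin n → ℤ) :=
    (Pi.basis b0).map e.symm
  have hb : ∀ q, b q ∈ N q.1 := by
    intro q
    have h2 : b q = e.symm (Pi.basis b0 q) := rfl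
    have h3 : e.symm (Pi.basis b0 q) = ∑ g, ((Pi.basis b0 q) g : Fin n → ℤ) := rfl
    rw [h2, h3, Finset.sum_eq_single q.1]
    · exact ((Pi.basis b0 q) q.1).2
    · intro k _ hk
      rw [Pi.basis_apply, Pi.single_eq_of_ne hk]
      rfl
    · intro h; exact absurd (Finset.mem_univ q.1) h
  let σ := b.indexEquiv (Pi.basisFun ℤ (Fin n))
  let b' := b.reindex σ
  have hb' : ∀ j, b' j ∈ N (σ.symm j).1 := by
    intro j
    have : b' j = b (σ.symm j) := Module.Basis.reindex_apply _ _ _
    rw [this]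
    exact hb _
  let P : Matrix (Fin n) (Fin n) ℤ := fun j => b' j
  let Q : Matrix (Fin n) (Fin n) ℤ := fun i j => b'.repr (Pi.single i 1) j
  have hQP : Q * P = 1 := by
    ext i k
    rw [Matrix.mul_apply]
    have h2 := congrFun (b'.sum_repr (Pi.single i 1)) k
    rw [Finset.sum_apply] at h2
    change ∑ j, b'.repr (Pi.single i 1) j * b' j k = _
    refine h2.trans ?_
    rw [Matrix.one_apply, Pi.single_apply]
    by_cases hik : i = k
    · rw [if_pos hik, if_pos hik.symm]
    · rw [if_neg hik, if_neg (fun h => hik h.symm)]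
  have hPQ : P * Q = 1 := mul_eq_one_comm.1 hQP
  refine ⟨⟨P, Q, hPQ, hQP⟩, fun j => ((σ.symm j).1 : G), ?_⟩
  intro g j
  refine ⟨fun hg => ?_, fun hg => hN' _ _ _ (hb' j) hg⟩
  rw [← hg]
  exact hN _ _ (hb' j)

variable [Group G]

/-- **integral coefficients** -/
theorem main_int {τ : ℤ →+ ℤ} {C C' : Matrix (Fin n) (Fin n) ℤ}
    (A : (Matrix (Fin n) (Fin n) (MonoidAlgebra ℤ G))ˣ) (hC : Positive τ C)
    (h : A.val * const G C * adjT A.val = const G C') :
    ∃ (P W : (Matrix (Fin n) (Fin n) ℤ)ˣ) (γ : Fin n → G),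
      A.val = const G P.val * Matrix.diagonal (fun j => single (γ j) 1) * const G W.val := by
  classical
  obtain ⟨W, S, E, -, hE, hEE, h1, hA⟩ := main A hC h
  obtain ⟨P, γ, hP⟩ := diagonalise S E hE hEE h1
  refine ⟨P⁻¹, P * W, γ, ?_⟩
  have hE' : ∀ g, E g = (P⁻¹).val * Matrix.diagonal (fun j => if γ j = g then (1 : ℤ) else 0) *
      P.val := by
    intro g
    have h2 : P.val * E g = Matrix.diagonal (fun j => if γ j = g then (1 : ℤ) else 0) * P.val := by
      ext j k
      rw [Matrix.diagonal_mul]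
      have h4 : (P.val * E g) j k = Matrix.vecMul (P.val j) (E g) k := rfl
      rw [h4]
      by_cases hg : γ j = g
      · rw [if_pos hg, one_mul, (hP g j).1 hg]
      · rw [if_neg hg, zero_mul, (hP g j).2 hg]; rfl
    rw [mul_assoc, ← h2, ← mul_assoc, P.inv_mul, one_mul]
  ext i k g
  rw [hA g i k, hE' g, mul_assoc _ P.val]
  have h5 : (P * W).val = P.val * W.val := rfl
  rw [← h5, Matrix.mul_apply, Matrix.mul_apply, MonoidAlgebra.coeff_sum, Finsupp.finsetSum_apply]
  refine Finset.sum_congr rfl fun j _ => ?_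
  rw [Matrix.mul_diagonal, Matrix.mul_diagonal]
  change _ = (single 1 ((P⁻¹).val i j) * single (γ j) 1 * single 1 ((P * W).val j k)).coeff g
  rw [MonoidAlgebra.single_mul_single, MonoidAlgebra.single_mul_single, one_mul, mul_one,
    MonoidAlgebra.coeff_single, Finsupp.single_apply, mul_one]
  by_cases hg : γ j = g
  · rw [if_pos hg, if_pos hg, mul_one]
  · rw [if_neg hg, if_neg hg, mul_zero, zero_mul]

end Pool.Agent.TH254.DF
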