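import Pool.Agent.TH254.DF.Int

/-!
Self-adjoint idempotents with respect to a positive constant form are constant.
-/

set_option autoImplicit false

namespace Pool.Agent.TH254.DF

universe u v

open MonoidAlgebra (single)

variable {R : Type u} [Ring R] [StarRing R] {G : Type v} [Group G] {n : ℕ}

/-- additive operators which split every vector orthogonally commute -/
theorem splitting_comm {τ : R →+ ℤ} {C : Matrix (Fin n) (Fin n) R} (hC : Positive τ C)
    (f k : (Fin n → MonoidAlgebra R G) → (Fin n → MonoidAlgebra R G))
    (hf : ∀ x y, f (x + y) = f x + f y) (hk : ∀ x y, k (x + y) = k x + k y)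
    (hf1 : ∀ x, (form C (f x) (x - f x)).coeff 1 = 0 ∧ (form C (x - f x) (f x)).coeff 1 = 0)
    (hk1 : ∀ x, (form C (k x) (x - k x)).coeff 1 = 0 ∧ (form C (x - k x) (k x)).coeff 1 = 0)
    (x : Fin n → MonoidAlgebra R G) : f (k x) = k (f x) := by
  have hf0 : f 0 = 0 := by
    have := hf 0 0
    rw [add_zero] at this
    exact left_eq_add.1 this
  have hk0 : k 0 = 0 := by
    have := hk 0 0
    rw [add_zero] at this
    exact left_eq_add.1 this
  have hif : ∀ x, Ind τ C x → f x = 0 ∨ f x = x := by
    intro x hx
    obtain ⟨h1, h2⟩ := hf1 x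
    rcases hx (f x) (x - f x) (by abel) (by rw [h1, map_zero]) (by rw [h2, map_zero]) with h | h
    · left; exact h
    · right; exact (sub_eq_zero.1 h).symm
  have hik : ∀ x, Ind τ C x → k x = 0 ∨ k x = x := by
    intro x hx
    obtain ⟨h1, h2⟩ := hk1 x
    rcases hx (k x) (x - k x) (by abel) (by rw [h1, map_zero]) (by rw [h2, map_zero]) with h | h
    · left; exact h
    · right; exact (sub_eq_zero.1 h).symm
  have key : ∀ (N : ℕ) (x : Fin n → MonoidAlgebra R G), (τ ((form C x x).coeff 1)).toNat ≤ N →
      f (k x) = k (f x) := by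
    intro N
    induction N with
    | zero =>
      intro x hx
      have hx0 : x = 0 := by
        by_contra hne
        have := form_pos τ C hC x hne
        omega
      rw [hx0, hk0, hf0, hk0]
    | succ N ih =>
      intro x hx
      by_cases hi : Ind τ C x
      · rcases hif x hi with h1 | h1
        · rw [h1, hk0]
          rcases hik x hi with h2 | h2
          · rw [h2, hf0]
          · rw [h2, h1]
        · rw [h1]
          rcases hik x hi with h2 | h2
          · rw [h2, hf0]
          · rw [h2, h1]
      · unfold Ind at hi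
        push Not at hi
        obtain ⟨u, v, huv, hb1, hb2, hu, hv⟩ := hi
        have hpu := form_pos τ C hC u hu
        have hpv := form_pos τ C hC v hv
        have hsum : τ ((form C x x).coeff 1) =
            τ ((form C u u).coeff 1) + τ ((form C v v).coeff 1) := by
          rw [huv, form_add_left, form_add_right, form_add_right, MonoidAlgebra.coeff_add,
            MonoidAlgebra.coeff_add, MonoidAlgebra.coeff_add, Finsupp.add_apply, Finsupp.add_apply,
            Finsupp.add_apply, map_add, map_add, map_add, hb1, hb2]
          ring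
        have e1 := ih u (by omega)
        have e2 := ih v (by omega)
        rw [huv, hk, hf, hf, hk, e1, e2]
  exact key _ x le_rfl

/-- the form and a self-adjoint matrix -/
lemma form_selfadj (C : Matrix (Fin n) (Fin n) R) (p : Matrix (Fin n) (Fin n) (MonoidAlgebra R G))
    (hp : p * const G C = const G C * adjT p) (x y : Fin n → MonoidAlgebra R G) :
    form C (Matrix.vecMul x p) y = form C x (Matrix.vecMul y p) := by
  unfold form
  have h1 : (fun l => adj (Matrix.vecMul y p l)) = Matrix.mulVec (adjT p) (fun l => adj (y l)) := by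
    funext l
    rw [Matrix.vecMul, dotProduct, adj_sum, Matrix.mulVec, dotProduct]
    refine Finset.sum_congr rfl fun m _ => ?_
    rw [adj_mul]
    rfl
  rw [h1, Matrix.dotProduct_mulVec, Matrix.vecMul_vecMul, Matrix.vecMul_vecMul, hp]

/-- the form vanishes at zero -/
lemma form_zero_right (C : Matrix (Fin n) (Fin n) R) (x : Fin n → MonoidAlgebra R G) :
    form C x 0 = 0 := by
  have := form_add_right C x 0 0
  rw [add_zero] at this
  exact left_eq_add.1 this

/-- **self-adjoint idempotents are constant** -/
theorem idempotent_const {τ : R →+ ℤ} {C : Matrix (Fin n) (Fin n) R} (hC : Positive τ C)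
    (p : Matrix (Fin n) (Fin n) (MonoidAlgebra R G)) (hpp : p * p = p)
    (hp : p * const G C = const G C * adjT p) :
    ∃ p₀ : Matrix (Fin n) (Fin n) R, p = const G p₀ := by
  classical
  have hsplit : ∀ x : Fin n → MonoidAlgebra R G,
      (form C (Matrix.vecMul x p) (x - Matrix.vecMul x p)).coeff 1 = 0 ∧
        (form C (x - Matrix.vecMul x p) (Matrix.vecMul x p)).coeff 1 = 0 := by
    intro x
    have h1 : Matrix.vecMul (x - Matrix.vecMul x p) p = 0 := by
      rw [Matrix.sub_vecMul, Matrix.vecMul_vecMul, hpp, sub_self]
    constructor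
    · rw [form_selfadj C p hp, h1, form_zero_right]; rfl
    · rw [← form_selfadj C p hp, h1]
      unfold form
      rw [Matrix.zero_vecMul, zero_dotProduct]; rfl
  have hcomm := splitting_comm hC (comp (1 : G)) (fun x => Matrix.vecMul x p)
    (fun x y => comp_add _ _ _) (fun x y => Matrix.add_vecMul _ _ _)
    (fun x => comp_disjoint C 1 x) hsplit
  refine ⟨mat p 1, ?_⟩
  ext i j g
  have h2 := hcomm ((1 : Matrix (Fin n) (Fin n) (MonoidAlgebra R G)) i)
  have h3 : comp (1 : G) ((1 : Matrix (Fin n) (Fin n) (MonoidAlgebra R G)) i) =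
      (1 : Matrix (Fin n) (Fin n) (MonoidAlgebra R G)) i := by
    funext j
    change single 1 (((1 : Matrix (Fin n) (Fin n) (MonoidAlgebra R G)) i j).coeff 1) = _
    rw [Matrix.one_apply]
    by_cases hij : i = j
    · rw [if_pos hij, MonoidAlgebra.one_def, MonoidAlgebra.coeff_single, Finsupp.single_eq_same]
    · rw [if_neg hij]; simp
  have h4 : Matrix.vecMul ((1 : Matrix (Fin n) (Fin n) (MonoidAlgebra R G)) i) p = p i := by
    have h5 : (1 : Matrix (Fin n) (Fin n) (MonoidAlgebra R G)) * p = p := one_mul p
    exact congrFun h5 i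
  change comp (1 : G) (Matrix.vecMul ((1 : Matrix (Fin n) (Fin n) (MonoidAlgebra R G)) i) p) =
    Matrix.vecMul (comp (1 : G) ((1 : Matrix (Fin n) (Fin n) (MonoidAlgebra R G)) i)) p at h2
  rw [h3, h4] at h2
  have h6 := congrArg (fun a : MonoidAlgebra R G => a.coeff g) (congrFun h2 j)
  exact h6.symm

end Pool.Agent.TH254.DF
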